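import Pool.Agent.Q183.AR.Szp

/-!
# MP_d8bd92_nt: Szpiro's inequality along linear recurrences
-/

set_option autoImplicit false

namespace Pool.Agent.Results.MP_d8bd92_nt.AlongRecurrences

open Pool.Agent.Q183.AR

variable {J : Type} [Fintype J]

/-- the product of the primes dividing the discriminant -/
def conductor (W : WeierstrassCurve ℤ) : ℕ := ∏ p ∈ W.Δ.natAbs.primeFactors, p

/-- the product of the bases `g_j(s)` which occur in the discriminant (with exponent `d_j ≠ 0`) -/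
def base (g : J → ℕ → ℤ) (d : J → ℕ) (s : ℕ) : ℤ :=
  ∏ j ∈ Finset.univ.filter (fun j => d j ≠ 0), g j s

/-- Szpiro's inequality for `W`, in the form `max(|c₄|³, c₆²) ≤ C q ^ 6`, with `q` the product `Q` of
the bases, and with `q` the conductor if `Q` is squarefree. -/
def Good (C : ℝ) (W : WeierstrassCurve ℤ) (Q : ℤ) : Prop :=
  max (|(W.c₄ : ℝ)| ^ 3) (|(W.c₆ : ℝ)| ^ 2) ≤ C * |(Q : ℝ)| ^ 6 ∧
  |(W.Δ : ℝ)| ≤ C * |(Q : ℝ)| ^ 6 ∧
  (Squarefree Q → max (|(W.c₄ : ℝ)| ^ 3) (|(W.c₆ : ℝ)| ^ 2) ≤ C * (conductor W : ℝ) ^ 6 ∧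
    |(W.Δ : ℝ)| ≤ C * (conductor W : ℝ) ^ 6)

theorem base_le {W : WeierstrassCurve ℤ} (hW : W.Δ ≠ 0) {k : ℤ} {g : J → ℕ → ℤ} {d : J → ℕ} {s : ℕ}
    (h : W.Δ = k * ∏ j, g j s ^ d j) (hsq : Squarefree (base g d s)) :
    |(base g d s : ℝ)| ≤ conductor W := by
  classical
  have h1 : (base g d s).natAbs = ∏ p ∈ (base g d s).natAbs.primeFactors, p :=
    (Nat.prod_primeFactors_of_squarefree (Int.squarefree_natAbs.2 hsq)).symm
  have h2 : (base g d s).natAbs.primeFactors ⊆ W.Δ.natAbs.primeFactors := by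
    intro p hp
    have hp1 := Nat.prime_of_mem_primeFactors hp
    have hp2 : (p : ℤ) ∣ base g d s := Int.natCast_dvd.2 (Nat.dvd_of_mem_primeFactors hp)
    refine Nat.mem_primeFactors.2 ⟨hp1, Int.natCast_dvd.1 ?_, Int.natAbs_ne_zero.2 hW⟩
    unfold base at hp2
    obtain ⟨j, hj, hpj⟩ := (Nat.prime_iff_prime_int.1 hp1).exists_mem_finset_dvd hp2
    rw [h]
    exact Dvd.dvd.mul_left ((dvd_pow hpj (Finset.mem_filter.1 hj).2).trans
      (Finset.dvd_prod_of_mem (fun j => g j s ^ d j) (Finset.mem_univ j))) _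
  have h3 : (base g d s).natAbs ≤ conductor W := by
    rw [h1]
    unfold conductor
    exact Finset.prod_le_prod_of_subset_of_one_le' h2 fun p hp _ =>
      (Nat.prime_of_mem_primeFactors hp).one_lt.le
  calc |(base g d s : ℝ)| = ((base g d s).natAbs : ℝ) := by rw [Nat.cast_natAbs]; push_cast; rfl
    _ ≤ conductor W := by exact_mod_cast h3

/-- **Szpiro's inequality without epsilon** for almost all members of the families of semistable
elliptic curves whose invariants are products of powers of linear recurrences. -/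
theorem result (g : J → ℕ → ℤ) (hg : ∀ j, ∃ E : LinearRecurrence ℤ, E.IsSolution (g j))
    (κ μ : Fin 3 → ℤ) (hμ : ∀ i, μ i ≠ 0) (a b d : J → ℕ) (W : ℕ → WeierstrassCurve ℤ)
    (h4 : ∀ t, (W t).c₄ = κ 0 * μ 0 ^ t * ∏ j, g j t ^ a j)
    (h6 : ∀ t, (W t).c₆ = κ 1 * μ 1 ^ t * ∏ j, g j t ^ b j)
    (hΔ : ∀ t, (W t).Δ = κ 2 * μ 2 ^ t * ∏ j, g j t ^ d j) (η : ℝ) (hη : 0 < η) :
    ∃ (C : ℝ) (T z : ℕ), ∀ t n : ℕ, z ≤ t → T ≤ n →
      (({s | t ≤ s ∧ s < t + n ∧ (W s).Δ ≠ 0 ∧ IsCoprime (W s).c₄ (W s).Δ ∧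
        ¬ Good C (W s) (base g d s)}.ncard : ℕ) : ℝ) ≤ η * n := by
  classical
  obtain ⟨C, T, z, hC, h⟩ := szp g hg κ μ hμ a b d (fun t => (W t).c₄) (fun t => (W t).c₆)
    (fun t => (W t).Δ) h4 h6 hΔ (fun t => (W t).c_relation) η hη
  refine ⟨C, T, z, fun t n ht hn => le_trans ?_ (h t n ht hn)⟩
  have h1 : {s | t ≤ s ∧ s < t + n ∧ (W s).Δ ≠ 0 ∧ IsCoprime (W s).c₄ (W s).Δ ∧
      ¬ Good C (W s) (base g d s)} ⊆ {s | t ≤ s ∧ s < t + n ∧ ¬ ((W s).Δ ≠ 0 →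
        IsCoprime (W s).c₄ (W s).Δ → max (|((W s).c₄ : ℝ)| ^ 3) (|((W s).c₆ : ℝ)| ^ 2) ≤
          C * (∏ j ∈ Finset.univ.filter (fun j => d j ≠ 0), |(g j s : ℝ)|) ^ 6)} := by
    rintro s ⟨h2, h3, h5, h7, h8⟩
    refine ⟨h2, h3, fun h9 => h8 ?_⟩
    have h10 := h9 h5 h7
    have h11 : ∏ j ∈ Finset.univ.filter (fun j => d j ≠ 0), |(g j s : ℝ)| = |(base g d s : ℝ)| := by
      unfold base
      rw [Int.cast_prod, Finset.abs_prod]
    rw [h11] at h10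
    have h12 : |((W s).Δ : ℝ)| ≤ max (|((W s).c₄ : ℝ)| ^ 3) (|((W s).c₆ : ℝ)| ^ 2) := by
      have h13 : (1728 : ℝ) * ((W s).Δ : ℝ) = ((W s).c₄ : ℝ) ^ 3 - ((W s).c₆ : ℝ) ^ 2 := by
        exact_mod_cast (W s).c_relation
      have h14 : 1728 * |((W s).Δ : ℝ)| ≤ |((W s).c₄ : ℝ)| ^ 3 + |((W s).c₆ : ℝ)| ^ 2 := by
        have h15 : 1728 * |((W s).Δ : ℝ)| = |((W s).c₄ : ℝ) ^ 3 - ((W s).c₆ : ℝ) ^ 2| := by
          rw [← h13, abs_mul]
          norm_num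
        rw [h15, ← abs_pow, ← abs_pow]
        exact abs_sub _ _
      have h15 := le_max_left (|((W s).c₄ : ℝ)| ^ 3) (|((W s).c₆ : ℝ)| ^ 2)
      have h16 := le_max_right (|((W s).c₄ : ℝ)| ^ 3) (|((W s).c₆ : ℝ)| ^ 2)
      have h17 := abs_nonneg ((W s).Δ : ℝ)
      linarith
    refine ⟨h10, h12.trans h10, fun hsq => ?_⟩
    have h13 := base_le h5 (hΔ s) hsq
    have h14 : C * |(base g d s : ℝ)| ^ 6 ≤ C * (conductor (W s) : ℝ) ^ 6 :=
      mul_le_mul_of_nonneg_left (pow_le_pow_left₀ (abs_nonneg _) h13 6) hC.le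
    exact ⟨h10.trans h14, (h12.trans h10).trans h14⟩
  exact_mod_cast Set.ncard_le_ncard h1 ((Set.finite_Ico t (t + n)).subset fun _ hs => ⟨hs.1, hs.2.1⟩)

end Pool.Agent.Results.MP_d8bd92_nt.AlongRecurrences
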