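import Mathlib
import Pool.Agent.Q265.LO.Szl

/-!
# Localisation of Szpiro's conjecture: one small interval of `j`-invariants suffices

For the semistable curves with `j`-invariant in an arbitrarily small interval `(u, v)` Szpiro's
inequality is equivalent to Szpiro's inequality, and even to the modified inequality for ALL elliptic
curves over `ℚ` (semistable or not), with `j`-invariant in any compact subset of the real line
without `0` and `1728`.
-/

set_option autoImplicit false

namespace Pool.Agent.Results.MP_d8bd92_nt.Localisation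

/-- `W` is a global minimal Weierstrass equation: `Δ ≠ 0`, and `|Δ|` is smallest among all integral
Weierstrass equations that are obtained from `W` by a change of variables over `ℚ` -/
def IsGlobalMinimal (W : WeierstrassCurve ℤ) : Prop :=
  W.Δ ≠ 0 ∧ ∀ W' : WeierstrassCurve ℤ,
    (∃ C : WeierstrassCurve.VariableChange ℚ,
      C • W.map (Int.castRingHom ℚ) = W'.map (Int.castRingHom ℚ)) → |W.Δ| ≤ |W'.Δ|

/-- `W` is a global minimal equation of a semistable elliptic curve -/
def Semistable (W : WeierstrassCurve ℤ) : Prop := W.Δ ≠ 0 ∧ IsCoprime W.c₄ W.Δ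

/-- the conductor of a semistable curve: the product of the primes dividing `Δ` -/
def conductor (W : WeierstrassCurve ℤ) : ℕ := ∏ p ∈ W.Δ.natAbs.primeFactors, p

/-- the prime-to-6 part `N₆` of the conductor `N` of a global minimal equation, semistable or not: the
product over the primes `p ≥ 5` dividing `Δ` of `p` (multiplicative reduction, `p ∤ c₄`) or `p²`
(additive); one has `N₆ ≤ N ≤ 2 ^ 8 * 3 ^ 5 * N₆` -/
def conductor6 (W : WeierstrassCurve ℤ) : ℕ :=
  ∏ p ∈ W.Δ.natAbs.primeFactors.filter (fun p => 5 ≤ p), if (p : ℤ) ∣ W.c₄ then p ^ 2 else p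

/-- the `j`-invariant, as a real number -/
noncomputable def j (W : WeierstrassCurve ℤ) : ℝ := (W.c₄ : ℝ) ^ 3 / W.Δ

/-- the curve has a rational point of order two -/
def HasTwoTorsion (W : WeierstrassCurve ℤ) : Prop :=
  ∃ r : ℚ, 4 * r ^ 3 + W.b₂ * r ^ 2 + 2 * W.b₄ * r + W.b₆ = 0

/-- Szpiro's inequality (with every `ε > 0`) for the semistable curves in `F` -/
def SzpiroOn (F : Set (WeierstrassCurve ℤ)) : Prop :=
  ∀ ε : ℝ, 0 < ε → ∃ C : ℝ, ∀ W ∈ F, Semistable W →
    |(W.Δ : ℝ)| ≤ C * (conductor W : ℝ) ^ (6 + ε)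

/-- the modified Szpiro inequality (with every `ε > 0`) for all global minimal equations in `F` -/
def ModifiedSzpiroOn (F : Set (WeierstrassCurve ℤ)) : Prop :=
  ∀ ε : ℝ, 0 < ε → ∃ C : ℝ, ∀ W ∈ F, IsGlobalMinimal W →
    max (|(W.c₄ : ℝ)| ^ 3) ((W.c₆ : ℝ) ^ 2) ≤ C * (conductor6 W : ℝ) ^ (6 + ε)

/-- the curves with `δ ≤ |j| ≤ 1 / δ` and `|j - 1728| ≥ δ`; every compact set of real numbers without
`0` and `1728` is contained in the corresponding set of `j`-invariants for small `δ` -/
def Compact (δ : ℝ) : Set (WeierstrassCurve ℤ) := {W | δ ≤ |j W| ∧ |j W| ≤ 1 / δ ∧ δ ≤ |j W - 1728|}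

/-- the radical -/
def R (m : ℕ) : ℕ := ∏ p ∈ m.primeFactors, p

/-- the abc inequality for the balanced triples: for all `δ`, `ε > 0` there is `κ` such that
`c ≤ κ R(a b c) ^ (1 + ε)` for all coprime positive `a + b = c` with `δ c ≤ a`, `δ c ≤ b` -/
def BalancedABC : Prop := ∀ δ : ℝ, 0 < δ → ∀ ε : ℝ, 0 < ε → ∃ κ : ℝ, ∀ a b c : ℕ, 0 < a → 0 < b →
  Nat.Coprime a b → a + b = c → δ * c ≤ a → δ * c ≤ b →
    (c : ℝ) ≤ κ * (R (a * b * c) : ℝ) ^ (1 + ε)

private theorem to_on (h : BalancedABC) : ∀ δ : ℝ, 0 < δ →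
    Q265.LO.On (Q265.LO.Ratio (Set.Icc δ (1 - δ))) := by
  intro δ hδ ε hε
  obtain ⟨κ, hκ⟩ := h δ hδ ε hε
  refine ⟨κ, ?_⟩
  rintro ⟨a, b, c⟩ ⟨⟨h1, h2, h3, h4⟩, h5, h6⟩
  simp only at h1 h2 h3 h4 h5 h6
  have hcr : (0 : ℝ) < c := by exact_mod_cast (by omega : 0 < c)
  have hs : (a : ℝ) + b = c := by exact_mod_cast h4
  rw [le_div_iff₀ hcr] at h5
  rw [div_le_iff₀ hcr] at h6
  exact hκ a b c h1 h2 h3 h4 h5 (by linarith)

private theorem of_on (h : ∀ δ : ℝ, 0 < δ → Q265.LO.On (Q265.LO.Ratio (Set.Icc δ (1 - δ)))) :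
    BalancedABC := by
  intro δ hδ ε hε
  obtain ⟨κ, hκ⟩ := h δ hδ ε hε
  refine ⟨κ, fun a b c h1 h2 h3 h4 h5 h6 => ?_⟩
  have hcr : (0 : ℝ) < c := by exact_mod_cast (by omega : 0 < c)
  have hs : (a : ℝ) + b = c := by exact_mod_cast h4
  refine hκ (a, b, c) ⟨⟨h1, h2, h3, h4⟩, ?_, ?_⟩
  · show δ ≤ (a : ℝ) / c
    rw [le_div_iff₀ hcr]
    exact h5
  · show (a : ℝ) / c ≤ 1 - δ
    rw [div_le_iff₀ hcr]
    linarith

private theorem away {u v a x : ℝ} (h1 : u < x) (h2 : x < v) (ha : a ∉ Set.Icc u v) :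
    min |u - a| |v - a| ≤ |x - a| := by
  rw [Set.mem_Icc, not_and_or, not_le, not_le] at ha
  rcases ha with h | h
  · refine (min_le_left _ _).trans ?_
    rw [abs_of_pos (by linarith), abs_of_pos (by linarith)]
    linarith
  · refine (min_le_right _ _).trans ?_
    rw [abs_of_neg (by linarith), abs_of_neg (by linarith)]
    linarith

/-- Let `u < v` be real numbers.
(1) For every `η > 0` there is a set `T` of semistable curves with a rational point of order two and
`j ∈ (u, v)`, at most `C X ^ η` of them with `|Δ| ≤ X`, such that Szpiro's inequality for the curves in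
`T` implies the modified Szpiro inequality for all elliptic curves over `ℚ`, semistable or not, whose
`j`-invariant lies in a given compact subset of the real line without `0` and `1728`.
(2) If `0` and `1728` are not in `[u, v]`, the following are equivalent: Szpiro's inequality for the
semistable curves with `j ∈ (u, v)`; the same for those which have a rational point of order two;
Szpiro's inequality for the semistable curves with `j` in any compact set without `0` and `1728`; the
modified Szpiro inequality for all elliptic curves over `ℚ` with `j` in any such compact set; the abc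
inequality for balanced triples. -/
theorem result (u v : ℝ) (huv : u < v) :
    (∀ η : ℝ, 0 < η → ∃ T : Set (WeierstrassCurve ℤ),
      T ⊆ {W | Semistable W ∧ HasTwoTorsion W ∧ j W ∈ Set.Ioo u v} ∧
      (∃ C : ℝ, ∀ X : ℝ, 1 ≤ X → {W ∈ T | |(W.Δ : ℝ)| ≤ X}.Finite ∧
        ({W ∈ T | |(W.Δ : ℝ)| ≤ X}.ncard : ℝ) ≤ C * X ^ η) ∧
      (SzpiroOn T → ∀ δ : ℝ, 0 < δ → ModifiedSzpiroOn (Compact δ))) ∧
    (0 ∉ Set.Icc u v → 1728 ∉ Set.Icc u v →
      List.TFAE [SzpiroOn {W | j W ∈ Set.Ioo u v},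
        SzpiroOn {W | HasTwoTorsion W ∧ j W ∈ Set.Ioo u v},
        ∀ δ : ℝ, 0 < δ → SzpiroOn (Compact δ),
        ∀ δ : ℝ, 0 < δ → ModifiedSzpiroOn (Compact δ),
        BalancedABC]) := by
  constructor
  · intro η hη
    obtain ⟨T, h1, h2, h3⟩ := Q265.LO.sparseJ huv hη
    refine ⟨T, fun W hW => ⟨⟨(h1 hW).1, (h1 hW).2.1⟩, (h1 hW).2.2.1, (h1 hW).2.2.2⟩, h2, ?_⟩
    intro h δ hδ
    have h4 : Q265.LO.SzOn T := by
      intro ε hε
      obtain ⟨C, hC⟩ := h ε hε
      exact ⟨C, fun W hW => hC W hW ⟨(h1 hW).1, (h1 hW).2.1⟩⟩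
    exact Q265.MS.ms_bal (h3 h4) hδ
  · intro hu0 hu1
    tfae_have 1 → 2 := by
      intro h ε hε
      obtain ⟨C, hC⟩ := h ε hε
      exact ⟨C, fun W hW => hC W hW.2⟩
    tfae_have 2 → 5 := by
      intro h
      obtain ⟨T, h1, -, h3⟩ := Q265.LO.sparseJ huv one_pos
      refine of_on (h3 ?_)
      intro ε hε
      obtain ⟨C, hC⟩ := h ε hε
      exact ⟨C, fun W hW => hC W (h1 hW).2.2 ⟨(h1 hW).1, (h1 hW).2.1⟩⟩
    tfae_have 5 → 4 := by
      intro h δ hδ
      exact Q265.MS.ms_bal (to_on h) hδ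
    tfae_have 4 → 3 := by
      intro h δ hδ ε hε
      obtain ⟨C, hC⟩ := h δ hδ ε hε
      refine ⟨1 / δ * max C 0, fun W hW hs => ?_⟩
      have h1 := hC W hW (Q265.MS.minimal_of_coprime hs.1 hs.2)
      have hΔ : 0 < |(W.Δ : ℝ)| := abs_pos.2 (by exact_mod_cast hs.1)
      have h2 : δ * |(W.Δ : ℝ)| ≤ |(W.c₄ : ℝ)| ^ 3 := by
        have h3 := hW.1
        unfold j at h3
        rw [abs_div, le_div_iff₀ hΔ, abs_pow] at h3
        exact h3
      have h3 : (conductor6 W : ℝ) ≤ conductor W := by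
        exact_mod_cast Q265.LO.N6_le_Nc hs.2 hs.1
      have h4 : δ * |(W.Δ : ℝ)| ≤ max C 0 * (conductor W : ℝ) ^ (6 + ε) := by
        calc δ * |(W.Δ : ℝ)| ≤ |(W.c₄ : ℝ)| ^ 3 := h2
          _ ≤ max (|(W.c₄ : ℝ)| ^ 3) ((W.c₆ : ℝ) ^ 2) := le_max_left _ _
          _ ≤ C * (conductor6 W : ℝ) ^ (6 + ε) := h1
          _ ≤ max C 0 * (conductor6 W : ℝ) ^ (6 + ε) := by
            gcongr
            exact le_max_left _ _
          _ ≤ _ := by gcongr
      rw [mul_assoc, one_div, inv_mul_eq_div, le_div_iff₀ hδ]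
      linarith
    tfae_have 3 → 1 := by
      intro h
      obtain ⟨δ, hδ⟩ : ∃ δ : ℝ, δ = min (min (min |u - 0| |v - 0|) (min |u - 1728| |v - 1728|))
        (1 / (|u| + |v|)) := ⟨_, rfl⟩
      have hne : ∀ a : ℝ, a ∉ Set.Icc u v → 0 < min |u - a| |v - a| := by
        intro a ha
        refine lt_min (abs_pos.2 ?_) (abs_pos.2 ?_)
        · intro h0
          exact ha ⟨by linarith, by linarith⟩
        · intro h0
          exact ha ⟨by linarith, by linarith⟩
      have huv0 : 0 < |u| + |v| := by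
        have h1 := hne 0 hu0
        rw [sub_zero, sub_zero] at h1
        have h2 := lt_of_lt_of_le h1 (min_le_left _ _)
        have h3 := abs_nonneg v
        linarith
      have hδ0 : 0 < δ := by
        rw [hδ]
        exact lt_min (lt_min (hne 0 hu0) (hne 1728 hu1)) (by positivity)
      intro ε hε
      obtain ⟨C, hC⟩ := h δ hδ0 ε hε
      refine ⟨C, fun W hW hs => hC W ⟨?_, ?_, ?_⟩ hs⟩
      · have h1 := away hW.1 hW.2 hu0
        rw [sub_zero (j W)] at h1
        rw [hδ]
        exact ((min_le_left _ _).trans (min_le_left _ _)).trans h1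
      · have h1 : |j W| ≤ |u| + |v| := by
          rw [abs_le]
          have h2 := neg_abs_le u
          have h3 := le_abs_self v
          have h4 := abs_nonneg u
          have h5 := abs_nonneg v
          exact ⟨by linarith [hW.1], by linarith [hW.2]⟩
        refine h1.trans ?_
        rw [le_div_iff₀ hδ0]
        have h2 : δ ≤ 1 / (|u| + |v|) := by rw [hδ]; exact min_le_right _ _
        rw [le_div_iff₀ huv0] at h2
        linarith
      · rw [hδ]
        exact ((min_le_left _ _).trans (min_le_right _ _)).trans (away hW.1 hW.2 hu1)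
    tfae_finish

end Pool.Agent.Results.MP_d8bd92_nt.Localisation
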