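import Pool.Agent.Q272.SS.GenC

/-!
For every `κ < 6` many semistable elliptic curves over `ℚ` have `|Δ| ≥ N ^ κ`: at least
`X ^ (1 - κ/6 - ε)` of conductor `N ≤ X`, for all `1 ≤ κ < 6`.
-/

set_option autoImplicit false

namespace Pool.Agent.Results.MP_d8bd92_nt.ManyLargeDiscriminants

/-- the product of the primes dividing `Δ(W)` (the conductor if `gcd(c₄, Δ) = 1`) -/
def conductor (W : WeierstrassCurve ℤ) : ℕ := ∏ p ∈ W.Δ.natAbs.primeFactors, p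

/-- the invariants `(c₄, c₆)` of the integral Weierstrass curves with `Δ ≠ 0` and `gcd(c₄, Δ) = 1`
(the minimal models of the semistable elliptic curves over `ℚ`) with conductor `N ≤ X` and
`|Δ| ≥ N ^ κ` -/
def Large (κ X : ℝ) : Set (ℤ × ℤ) :=
  {q | ∃ W : WeierstrassCurve ℤ, W.Δ ≠ 0 ∧ IsCoprime W.c₄ W.Δ ∧ q = (W.c₄, W.c₆) ∧
    (conductor W : ℝ) ≤ X ∧ (conductor W : ℝ) ^ κ ≤ |(W.Δ : ℝ)|}

/-- Let `1 ≤ κ < 6` and `ε > 0`. For all large `X` there are at least `X ^ (1 - κ/6 - ε)`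
semistable elliptic curves over `ℚ` with conductor `N ≤ X` and minimal discriminant
`|Δ| ≥ N ^ κ`. -/
theorem result (κ ε : ℝ) (h1 : 1 ≤ κ) (h6 : κ < 6) (hε : 0 < ε) :
    ∃ X₀ : ℝ, ∀ X : ℝ, X₀ ≤ X → ∃ U : Finset (ℤ × ℤ), (U : Set (ℤ × ℤ)) ⊆ Large κ X ∧
      X ^ (1 - κ / 6 - ε) ≤ (U.card : ℝ) := by
  rcases lt_or_ge κ 2 with h2 | h2
  · exact Filter.eventually_atTop.mp (Pool.Agent.Q272.SS.count_gen h1 h2 hε)
  · exact Filter.eventually_atTop.mp (Pool.Agent.Q272.SS.count_frey h2 h6 hε)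

end Pool.Agent.Results.MP_d8bd92_nt.ManyLargeDiscriminants
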