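import Mathlib
import Pool.Agent.Q29.SZ.Ident

/-!
# Szpiro's inequality for semistable curves whose invariants are composed of numbers with small digits

The bases are numbers `q_i = F_i(t)` with small digits (of either sign) in a large base `t`, with last
digit `0`, `1` or `-1`. The invariants `c₄`, `c₆`, `Δ` of the semistable curves treated here are
products of powers of the bases with small coefficients, for example `c₄ = 1024 t² + 32 t + 1`,
`c₆ = (64 t + 1) (16 t + 1) (32 t - 1)`, `Δ = 4 t² (32 t + 1)²` (a Frey curve). The exponents may be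
as large as `t ^ δ`, so that `Δ` may be as large as `exp (t ^ δ)` while the conductor is at most
`t ^ K`, and they are arbitrary if one of the three invariants is composed of the bases with last
digit `0` only and the other two of the bases with last digit `1` or `-1` only.

It is shown that the relation `c₄ ^ 3 - c₆ ^ 2 = 1728 Δ` comes from an identity between polynomials;
the theorem of Mason and Stothers bounds the degrees in this identity, and this gives Szpiro's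
inequality with a power saving.
-/

set_option autoImplicit false

namespace Pool.Agent.Results.MP_d8bd92_nt.SmallDigits

open Polynomial Finset

/-- The conductor of a semistable curve given by an integral equation with coprime `c₄` and `Δ`: the
product of the prime numbers which divide `Δ`. -/
def conductor (W : WeierstrassCurve ℤ) : ℕ := ∏ p ∈ W.Δ.natAbs.primeFactors, p

/-- The product of the distinct primes dividing `n`. -/
def rad (n : ℤ) : ℕ := ∏ p ∈ n.natAbs.primeFactors, p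

/-- The bases `F_i(t)`, `i < n`, are the values at `t` of nonconstant polynomials with coefficients
(digits) of absolute value at most `H` and last digit `0`, `1` or `-1`, of total degree at most
`K`; the coefficients `α`, `β`, `γ` are nonzero of absolute value at most `H`; and
`c₄ = α ∏ F_i(t) ^ a_i`, `c₆ = β ∏ F_i(t) ^ b_i`, `Δ = γ ∏ F_i(t) ^ d_i` for the curve `W`, where at
least one of the exponents is positive. -/
structure Composed (K : ℕ) (H : ℝ) (t : ℕ) {n : ℕ} (F : Fin n → ℤ[X]) (α β γ : ℤ)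
    (a b d : Fin n → ℕ) (W : WeierstrassCurve ℤ) : Prop where
  pos : ∀ i, 0 < (F i).natDegree
  deg : ∑ i, (F i).natDegree ≤ K
  digits : ∀ i j, |((F i).coeff j : ℝ)| ≤ H
  last : ∀ i, (F i).coeff 0 = 0 ∨ (F i).coeff 0 = 1 ∨ (F i).coeff 0 = -1
  ne : α ≠ 0 ∧ β ≠ 0 ∧ γ ≠ 0
  coef : |(α : ℝ)| ≤ H ∧ |(β : ℝ)| ≤ H ∧ |(γ : ℝ)| ≤ H
  c4 : W.c₄ = α * ∏ i, (F i).eval (t : ℤ) ^ a i
  c6 : W.c₆ = β * ∏ i, (F i).eval (t : ℤ) ^ b i
  disc : W.Δ = γ * ∏ i, (F i).eval (t : ℤ) ^ d i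
  some : ∃ i, a i ≠ 0 ∨ b i ≠ 0 ∨ d i ≠ 0

/-- The sum of the exponents in each of the three invariants is at most `H`. -/
def ShortExponents (H : ℝ) {n : ℕ} (a b d : Fin n → ℕ) : Prop :=
  ((∑ i, a i : ℕ) : ℝ) ≤ H ∧ ((∑ i, b i : ℕ) : ℝ) ≤ H ∧ ((∑ i, d i : ℕ) : ℝ) ≤ H

/-- One of the three invariants is composed of bases with last digit `0` only, the other two are
composed of bases with last digit `1` or `-1` only. There is no condition on the size of the
exponents. -/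
def Separated {n : ℕ} (F : Fin n → ℤ[X]) (a b d : Fin n → ℕ) : Prop :=
  ((∀ i, d i ≠ 0 → (F i).coeff 0 = 0) ∧ (∀ i, a i ≠ 0 → (F i).coeff 0 ≠ 0) ∧
      ∀ i, b i ≠ 0 → (F i).coeff 0 ≠ 0) ∨
    ((∀ i, a i ≠ 0 → (F i).coeff 0 = 0) ∧ (∀ i, d i ≠ 0 → (F i).coeff 0 ≠ 0) ∧
      ∀ i, b i ≠ 0 → (F i).coeff 0 ≠ 0) ∨
    ((∀ i, b i ≠ 0 → (F i).coeff 0 = 0) ∧ (∀ i, d i ≠ 0 → (F i).coeff 0 ≠ 0) ∧
      ∀ i, a i ≠ 0 → (F i).coeff 0 ≠ 0)

/-- The bases which occur in the discriminant, multiplied together. -/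
def support {n : ℕ} (F : Fin n → ℤ[X]) (t : ℕ) (d : Fin n → ℕ) : ℤ :=
  ∏ i with d i ≠ 0, (F i).eval (t : ℤ)

theorem result (K : ℕ) (ε : ℝ) (hε : 0 < ε) : ∃ δ : ℝ, 0 < δ ∧ ∃ t₀ : ℕ, ∀ t : ℕ, t₀ ≤ t →
    ∀ (n : ℕ) (F : Fin n → ℤ[X]) (α β γ : ℤ) (a b d : Fin n → ℕ) (W : WeierstrassCurve ℤ),
      IsCoprime W.c₄ W.Δ → Composed K ((t : ℝ) ^ δ) t F α β γ a b d W →
      (ShortExponents ((t : ℝ) ^ δ) a b d ∨ Separated F a b d) →
      (C α * ∏ i, F i ^ a i) ^ 3 - (C β * ∏ i, F i ^ b i) ^ 2 = 1728 * (C γ * ∏ i, F i ^ d i) ∧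
      ∀ x : ℝ, x = |(W.c₄ : ℝ)| ^ 3 ∨ x = |(W.c₆ : ℝ)| ^ 2 ∨ x = |(W.Δ : ℝ)| →
        x * (t : ℝ) ^ (6 - ε) ≤ |(support F t d : ℝ)| ^ 6 ∧
        x * (t : ℝ) ^ (6 - ε) * (rad (support F t d) : ℝ) ^ 6 ≤
          |(support F t d : ℝ)| ^ 6 * (conductor W : ℝ) ^ 6 ∧
        (Squarefree (support F t d) → x * (t : ℝ) ^ (6 - ε) ≤ (conductor W : ℝ) ^ 6) := by
  obtain ⟨δ₁, hδ₁, t₁, h1⟩ := Pool.Agent.Q29.SZ.ident_bdd K
  obtain ⟨δ₂, hδ₂, t₂, h2⟩ := Pool.Agent.Q29.SZ.ident_sep K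
  obtain ⟨δ₃, hδ₃, t₃, h3⟩ := Pool.Agent.Q29.SZ.sizes K ε hε
  obtain ⟨δ, hδ⟩ : ∃ δ : ℝ, δ = min (min δ₁ δ₂) (min δ₃ (1 / 2)) := ⟨_, rfl⟩
  have hδ0 : 0 < δ := by
    rw [hδ]; exact lt_min (lt_min hδ₁ hδ₂) (lt_min hδ₃ (by norm_num))
  have hle1 : δ ≤ δ₁ := by rw [hδ]; exact (min_le_left _ _).trans (min_le_left _ _)
  have hle2 : δ ≤ δ₂ := by rw [hδ]; exact (min_le_left _ _).trans (min_le_right _ _)
  have hle3 : δ ≤ δ₃ := by rw [hδ]; exact (min_le_right _ _).trans (min_le_left _ _)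
  have hle4 : δ ≤ 1 / 2 := by rw [hδ]; exact (min_le_right _ _).trans (min_le_right _ _)
  refine ⟨δ, hδ0, max (max t₁ t₂) (max t₃ 1729), ?_⟩
  intro t ht n F α β γ a b d W hcop hC hexp
  have htt1 : t₁ ≤ t := ((le_max_left _ _).trans (le_max_left _ _)).trans ht
  have htt2 : t₂ ≤ t := ((le_max_right _ _).trans (le_max_left _ _)).trans ht
  have htt3 : t₃ ≤ t := ((le_max_left _ _).trans (le_max_right _ _)).trans ht
  have ht1729 : 1729 ≤ t := ((le_max_right _ _).trans (le_max_right _ _)).trans ht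
  have htR : (1729 : ℝ) ≤ t := by exact_mod_cast ht1729
  have hmono : ∀ δ' : ℝ, δ ≤ δ' → (t : ℝ) ^ δ ≤ (t : ℝ) ^ δ' := fun δ' h =>
    Real.rpow_le_rpow_of_exponent_le (by linarith) h
  have hSm : ∀ δ' : ℝ, δ ≤ δ' → Pool.Agent.Q29.SZ.Small K ((t : ℝ) ^ δ') F := fun δ' h =>
    ⟨hC.pos, hC.deg, fun i j => (hC.digits i j).trans (hmono δ' h)⟩
  have hunit : ∀ i, |(F i).coeff 0| ≤ 1 := fun i => by
    rcases hC.last i with h | h | h <;> rw [h] <;> norm_num
  have hv1 : Pool.Agent.Q29.SZ.val F t α a = W.c₄ := hC.c4.symm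
  have hv2 : Pool.Agent.Q29.SZ.val F t β b = W.c₆ := hC.c6.symm
  have hv3 : Pool.Agent.Q29.SZ.val F t γ d = W.Δ := hC.disc.symm
  have hrel : Pool.Agent.Q29.SZ.val F t α a ^ 3 - Pool.Agent.Q29.SZ.val F t β b ^ 2 =
      1728 * Pool.Agent.Q29.SZ.val F t γ d := by
    rw [hv1, hv2, hv3]
    exact W.c_relation.symm
  have hid : Pool.Agent.Q103.SD.PP F (α ^ 3) (fun i => 3 * a i) -
      Pool.Agent.Q103.SD.PP F (β ^ 2) (fun i => 2 * b i) =
      Pool.Agent.Q103.SD.PP F (1728 * γ) d := by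
    rcases hexp with hs | hs
    · refine h1 t htt1 n F α β γ a b d (hSm _ hle1) hunit hC.ne.1 hC.ne.2.1 hC.ne.2.2
        (hC.coef.1.trans (hmono _ hle1)) (hC.coef.2.1.trans (hmono _ hle1))
        (hC.coef.2.2.trans (hmono _ hle1)) (hs.1.trans (hmono _ hle1))
        (hs.2.1.trans (hmono _ hle1)) (hs.2.2.trans (hmono _ hle1)) ?_ hrel
      rw [hv1, hv3]
      by_contra hcon
      push Not at hcon
      obtain ⟨u, v, huv⟩ := hcop.pow_left (m := 3)
      have h5 : (t : ℤ) ∣ 1728 := by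
        have h6 : (1728 : ℤ) = 1728 * u * W.c₄ ^ 3 + v * (1728 * W.Δ) := by
          linear_combination (-1728) * huv
        rw [h6]
        exact dvd_add (Dvd.dvd.mul_left hcon.1 _) (Dvd.dvd.mul_left hcon.2 _)
      have h7 := Int.le_of_dvd (by norm_num) h5
      omega
    · exact h2 t htt2 n F α β γ a b d (hSm _ hle2) hunit hC.ne.1 hC.ne.2.1 hC.ne.2.2
        (hC.coef.1.trans (hmono _ hle2)) (hC.coef.2.1.trans (hmono _ hle2))
        (hC.coef.2.2.trans (hmono _ hle2)) hs hrel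
  have hfinal : (C α * ∏ i, F i ^ a i) ^ 3 - (C β * ∏ i, F i ^ b i) ^ 2 =
      1728 * (C γ * ∏ i, F i ^ d i) := by
    have e1 : (C α * ∏ i, F i ^ a i) ^ 3 = Pool.Agent.Q103.SD.PP F (α ^ 3) (fun i => 3 * a i) := by
      unfold Pool.Agent.Q103.SD.PP
      rw [mul_pow, ← Finset.prod_pow, C_pow]
      congr 1
      exact Finset.prod_congr rfl fun i _ => by rw [← pow_mul, mul_comm]
    have e2 : (C β * ∏ i, F i ^ b i) ^ 2 = Pool.Agent.Q103.SD.PP F (β ^ 2) (fun i => 2 * b i) := by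
      unfold Pool.Agent.Q103.SD.PP
      rw [mul_pow, ← Finset.prod_pow, C_pow]
      congr 1
      exact Finset.prod_congr rfl fun i _ => by rw [← pow_mul, mul_comm]
    have e3 : 1728 * (C γ * ∏ i, F i ^ d i) = Pool.Agent.Q103.SD.PP F (1728 * γ) d := by
      unfold Pool.Agent.Q103.SD.PP
      rw [C_mul, mul_assoc]
      rfl
    rw [e1, e2, e3]
    exact hid
  have hcopij : ∀ i j, a i ≠ 0 → d j ≠ 0 →
      IsCoprime ((F i).eval (t : ℤ)) ((F j).eval (t : ℤ)) := by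
    intro i j hi hj
    rw [hC.c4, hC.disc] at hcop
    refine (hcop.of_isCoprime_of_dvd_left ?_).of_isCoprime_of_dvd_right ?_
    · exact Dvd.dvd.mul_left ((dvd_pow_self _ hi).trans
        (Finset.dvd_prod_of_mem (fun i => (F i).eval (t : ℤ) ^ a i) (Finset.mem_univ i))) _
    · exact Dvd.dvd.mul_left ((dvd_pow_self _ hj).trans
        (Finset.dvd_prod_of_mem (fun i => (F i).eval (t : ℤ) ^ d i) (Finset.mem_univ j))) _
  obtain ⟨B, hB⟩ : ∃ B : ℝ, B = (t : ℝ) ^ δ := ⟨_, rfl⟩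
  have hB1 : 1 ≤ B := by rw [hB]; exact Real.one_le_rpow (by linarith) hδ0.le
  have ht0 : (0 : ℝ) < t := by linarith
  obtain ⟨r, hr⟩ : ∃ r : ℝ, r = (t : ℝ) ^ (1 / 2 : ℝ) := ⟨_, rfl⟩
  have hrr : r * r = t := by
    rw [hr, ← Real.rpow_add ht0]
    norm_num
  have hr0 : 0 ≤ r := by rw [hr]; positivity
  have hr8 : 8 ≤ r := by nlinarith
  have hBr : B ≤ r := by
    rw [hB, hr]
    exact Real.rpow_le_rpow_of_exponent_le (by linarith) hle4
  have hSB : Pool.Agent.Q29.SZ.Small K B F := by rw [hB]; exact hSm _ le_rfl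
  have hco := Pool.Agent.Q29.SZ.coprime_PP (t := t) hSB hB1 (by nlinarith)
    (η := α ^ 3) (θ := 1728 * γ) (pow_ne_zero _ hC.ne.1) (mul_ne_zero (by norm_num) hC.ne.2.2)
    (e := fun i => 3 * a i) (f := d) (fun i j hi hj => hcopij i j (by
      intro h
      apply hi
      show 3 * a i = 0
      rw [h]) hj)
  have hdeg := Pool.Agent.Q29.SZ.degrees hSB (pow_ne_zero 3 hC.ne.1) (pow_ne_zero 2 hC.ne.2.1)
    (mul_ne_zero (by norm_num) hC.ne.2.2 : (1728 * γ : ℤ) ≠ 0) hid hco hC.some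
  refine ⟨hfinal, fun x hx => ?_⟩
  have hsize : x * (t : ℝ) ^ (6 - ε) ≤ |(support F t d : ℝ)| ^ 6 := by
    refine h3 t htt3 n F α β γ a b d (hSm _ hle3) (hC.coef.1.trans (hmono _ hle3))
      (hC.coef.2.1.trans (hmono _ hle3)) (hC.coef.2.2.trans (hmono _ hle3)) hdeg.1 hdeg.2.1
      hdeg.2.2 x ?_
    rw [hv1, hv2, hv3]
    exact hx
  have hF0 : ∀ i, (F i).eval (t : ℤ) ≠ 0 := by
    intro i h0
    have h5 := (Pool.Agent.Q103.SD.value_size (t := t) (by omega) (by linarith)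
      (show 4 * B ≤ t by nlinarith) (hSB.coeff i) (hSB.ne i)).1
    rw [h0, Int.cast_zero, abs_zero] at h5
    have h6 : (0 : ℝ) < (t : ℝ) ^ (F i).natDegree := by positivity
    linarith
  have hdisc0 : W.Δ ≠ 0 := by
    rw [hC.disc]
    exact mul_ne_zero hC.ne.2.2 (Finset.prod_ne_zero_iff.mpr fun i _ => pow_ne_zero _ (hF0 i))
  have hrad : rad (support F t d) ≤ conductor W := by
    refine Pool.Agent.Q103.SD.rad_le hdisc0 fun p hp hpQ => ?_
    have hpp : Prime (p : ℤ) := Nat.prime_iff_prime_int.mp hp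
    obtain ⟨i, hi, hpi⟩ := (hpp.dvd_finsetProd_iff _).mp hpQ
    rw [hC.disc]
    exact ((hpi.trans (dvd_pow_self _ (by simpa using hi))).trans
      (Finset.dvd_prod_of_mem (fun i => (F i).eval (t : ℤ) ^ d i) (Finset.mem_univ i))).mul_left _
  have hradR : (rad (support F t d) : ℝ) ^ 6 ≤ (conductor W : ℝ) ^ 6 := by
    apply pow_le_pow_left₀ (by positivity)
    exact_mod_cast hrad
  refine ⟨hsize, mul_le_mul hsize hradR (by positivity) (by positivity), fun hsq =>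
    hsize.trans ?_⟩
  have hQrad : |(support F t d : ℝ)| = rad (support F t d) := by
    have h5 : Squarefree (support F t d).natAbs := Int.squarefree_natAbs.mpr hsq
    have h6 : rad (support F t d) = (support F t d).natAbs :=
      Nat.prod_primeFactors_of_squarefree h5
    rw [h6, Nat.cast_natAbs]
    push_cast
    rfl
  rw [hQrad]
  exact hradR

end Pool.Agent.Results.MP_d8bd92_nt.SmallDigits
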